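import Pool.Agent.Helper97_WHC.StmtB

/-!
# Squad WHC (MP_eadad4_nt), row PRC: the Hecke operators preserve the cusp forms
-/

set_option autoImplicit false

open scoped BigOperators

namespace Pool.Agent.WHC.H20

open Pool.Agent.DEN Pool.Agent.TMP Pool.Agent.WHT

theorem orb_sum {G X : Type} [Group G] [MulAction G X] (V : Subgroup G) (T : Finset X)
    (hT : ∀ v ∈ V, ∀ z ∈ T, v • z ∈ T) (a h : X → ℂ) (ha : ∀ v ∈ V, ∀ z, a (v • z) = a z)
    (h0 : ∀ z ∈ T, ∑ᶠ y ∈ {y | ∃ v ∈ V, y = v • z}, h y = 0) : ∑ z ∈ T, a z * h z = 0 := by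
  classical
  rw [← Finset.sum_fiberwise_of_maps_to
    (g := fun z => (Quotient.mk (MulAction.orbitRel V X) z))
    (t := T.image fun z => (Quotient.mk (MulAction.orbitRel V X) z))
    (fun z hz => Finset.mem_image_of_mem _ hz)]
  refine Finset.sum_eq_zero fun o ho => ?_
  obtain ⟨z0, hz0, rfl⟩ := Finset.mem_image.1 ho
  have hmem : ∀ z, z ∈ T.filter (fun z => Quotient.mk (MulAction.orbitRel V X) z =
      Quotient.mk (MulAction.orbitRel V X) z0) ↔ ∃ v ∈ V, z = v • z0 := by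
    intro z
    rw [Finset.mem_filter, Quotient.eq, MulAction.orbitRel_apply, MulAction.mem_orbit_iff]
    constructor
    · rintro ⟨-, v, hv⟩
      exact ⟨v, v.2, hv.symm⟩
    · rintro ⟨v, hv, rfl⟩
      exact ⟨hT v hv z0 hz0, ⟨v, hv⟩, rfl⟩
  have hset : ((T.filter (fun z => Quotient.mk (MulAction.orbitRel V X) z =
      Quotient.mk (MulAction.orbitRel V X) z0) : Finset X) : Set X) =
      {y | ∃ v ∈ V, y = v • z0} := by
    ext z
    rw [Finset.mem_coe, hmem]
    exact Iff.rfl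
  have h1 := h0 z0 hz0
  rw [← hset, finsum_mem_coe_finset] at h1
  have h2 : ∑ z ∈ T.filter (fun z => Quotient.mk (MulAction.orbitRel V X) z =
      Quotient.mk (MulAction.orbitRel V X) z0), a z * h z =
      a z0 * ∑ z ∈ T.filter (fun z => Quotient.mk (MulAction.orbitRel V X) z =
      Quotient.mk (MulAction.orbitRel V X) z0), h z := by
    rw [Finset.mul_sum]
    refine Finset.sum_congr rfl fun z hz => ?_
    obtain ⟨v, hv, rfl⟩ := (hmem z).1 hz
    rw [ha v hv]
  rw [h2, h1, mul_zero]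

theorem prc : PrcStmt := by
  intro r C hC K _ _ N k hk f hf
  obtain ⟨hf1, hf2⟩ := hf
  have hT : ∀ (g : grp C K) (y : XX C K), Tk k f (g • y) = ∑ᶠ z, k y z * f (g • z) := by
    intro g y
    unfold Tk
    rw [← finsum_comp_equiv (MulAction.toPerm g)]
    refine finsum_congr fun z => ?_
    show k (g • y) (g • z) * f (g • z) = k y z * f (g • z)
    rw [hk.inv]
  refine ⟨?_, ?_⟩
  · intro γ hγ x
    rw [hT]
    unfold Tk
    refine finsum_congr fun z => ?_
    rw [hf1 γ hγ]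
  · intro i γ hγ x V hV hfull hfin
    classical
    obtain ⟨O, hO⟩ : ∃ O : Finset (XX C K), (O : Set (XX C K)) = {y | ∃ v ∈ V, y = v • x} :=
      ⟨hfin.toFinset, hfin.coe_toFinset⟩
    have hOm : ∀ y, y ∈ O ↔ ∃ v ∈ V, y = v • x := by
      intro y
      rw [← Finset.mem_coe, hO]
      exact Iff.rfl
    have hOv : ∀ v ∈ V, ∀ y, y ∈ O ↔ v • y ∈ O := by
      intro v hv y
      rw [hOm, hOm]
      constructor
      · rintro ⟨w, hw, rfl⟩
        exact ⟨v * w, V.mul_mem hv hw, (mul_smul v w x).symm⟩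
      · rintro ⟨w, hw, h⟩
        refine ⟨v⁻¹ * w, V.mul_mem (V.inv_mem hv) hw, ?_⟩
        rw [mul_smul, ← h, inv_smul_smul]
    rw [← hO, finsum_mem_coe_finset]
    obtain ⟨T, hTm⟩ : ∃ T : Finset (XX C K), ∀ z, z ∈ T ↔ ∃ y ∈ O, k y z ≠ 0 := by
      refine ⟨O.biUnion (fun y => (hk.fin y).toFinset), fun z => ?_⟩
      rw [Finset.mem_biUnion]
      constructor
      · rintro ⟨y, hy, hz⟩
        exact ⟨y, hy, (hk.fin y).mem_toFinset.1 hz⟩
      · rintro ⟨y, hy, hz⟩
        exact ⟨y, hy, (hk.fin y).mem_toFinset.2 hz⟩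
    have h1 : ∀ y ∈ O, Tk k f (γ • y) = ∑ z ∈ T, k y z * f (γ • z) := by
      intro y hy
      rw [hT]
      refine finsum_eq_sum_of_support_subset _ ?_
      intro z hz
      rw [Finset.mem_coe, hTm]
      refine ⟨y, hy, ?_⟩
      intro h
      apply hz
      show k y z * f (γ • z) = 0
      rw [h, zero_mul]
    rw [Finset.sum_congr rfl h1, Finset.sum_comm]
    have h2 : ∀ z ∈ T, ∑ y ∈ O, k y z * f (γ • z) = (∑ y ∈ O, k y z) * f (γ • z) := by
      intro z _
      rw [Finset.sum_mul]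
    rw [Finset.sum_congr rfl h2]
    have hTv : ∀ v ∈ V, ∀ z ∈ T, v • z ∈ T := by
      intro v hv z hz
      obtain ⟨y, hy, hyz⟩ := (hTm z).1 hz
      refine (hTm _).2 ⟨v • y, (hOv v hv y).1 hy, ?_⟩
      rw [hk.inv]
      exact hyz
    refine orb_sum V T hTv (fun z => ∑ y ∈ O, k y z) (fun z => f (γ • z)) ?_ ?_
    · intro v hv z
      show ∑ y ∈ O, k y (v • z) = ∑ y ∈ O, k y z
      symm
      refine Finset.sum_equiv (MulAction.toPerm v) (fun y => hOv v hv y) (fun y _ => ?_)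
      show k y z = k (v • y) (v • z)
      rw [hk.inv]
    · intro z hz
      refine hf2 i γ hγ z V hV hfull ?_
      refine T.finite_toSet.subset ?_
      rintro _ ⟨v, hv, rfl⟩
      exact hTv v hv z hz

end Pool.Agent.WHC.H20
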